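import Mathlib

namespace Pool.Agent.Results.MP_7332c2_co.Pendant

open Finset Filter

/-- Copies of `H` in `G`, each recorded as (vertex set, edge set) of a subgraph of `G`
isomorphic to `H`. -/
def copies {V W : Type} (H : SimpleGraph V) (G : SimpleGraph W) : Set (Set W × Set (Sym2 W)) :=
  {p | ∃ f : V ↪ W, (∀ a b, H.Adj a b → G.Adj (f a) (f b)) ∧
    p = (Set.range f, Sym2.map f '' H.edgeSet)}

/-- One round of the `H`-process. -/
def step {V W : Type} (H : SimpleGraph V) (G : SimpleGraph W) : SimpleGraph W :=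
  G ⊔ SimpleGraph.fromEdgeSet
    {e | (copies H G).ncard < (copies H (G ⊔ SimpleGraph.fromEdgeSet {e})).ncard}

/-- Running time of the `H`-process on `G`. -/
noncomputable def tau {V W : Type} (H : SimpleGraph V) (G : SimpleGraph W) : ℕ :=
  sInf {t | (step H)^[t] G = (step H)^[t + 1] G}

/-- Maximum running time over all graphs on `n` vertices. -/
noncomputable def M {V : Type} (H : SimpleGraph V) (n : ℕ) : ℕ :=
  ⨆ G : SimpleGraph (Fin n), tau H G

/-- `H` with one new vertex `none` joined only to `u`. -/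
def plus {V : Type} (H : SimpleGraph V) (u : V) : SimpleGraph (Option V) :=
  H.map Function.Embedding.some ⊔ SimpleGraph.fromEdgeSet {s(none, some u)}

theorem step_adj {V W : Type} [Finite W] (H : SimpleGraph V) (G : SimpleGraph W) (a b : W) :
    (step H G).Adj a b ↔ G.Adj a b ∨ (a ≠ b ∧ ∃ f : V ↪ W,
      (∀ x y, H.Adj x y → G.Adj (f x) (f y) ∨ s(f x, f y) = s(a, b)) ∧
      ∃ x y, H.Adj x y ∧ f x = a ∧ f y = b) := by
  simp only [step, SimpleGraph.sup_adj, SimpleGraph.fromEdgeSet_adj, Set.mem_ofPred_eq]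
  have hsub : copies H G ⊆ copies H (G ⊔ SimpleGraph.fromEdgeSet {s(a, b)}) := by
    rintro _ ⟨f, hf, rfl⟩
    exact ⟨f, fun x y h => Or.inl (hf x y h), rfl⟩
  by_cases hab : G.Adj a b
  · simp [hab]
  simp only [hab, false_or]
  constructor
  · rintro ⟨h1, h2⟩
    refine ⟨h2, ?_⟩
    obtain ⟨p, ⟨f, hf, rfl⟩, hp⟩ := Set.exists_mem_notMem_of_ncard_lt_ncard h1 (Set.toFinite _)
    refine ⟨f, fun x y h => (hf x y h).imp_right fun h => h.1, ?_⟩
    by_contra hn
    refine hp ⟨f, fun x y h => (hf x y h).resolve_right fun h' => hn ?_, rfl⟩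
    rcases Sym2.eq_iff.1 h'.1 with ⟨h3, h4⟩ | ⟨h3, h4⟩
    · exact ⟨x, y, h, h3, h4⟩
    · exact ⟨y, x, h.symm, h4, h3⟩
  · rintro ⟨h1, f, hf, x, y, hxy, rfl, rfl⟩
    refine ⟨Set.ncard_lt_ncard (Set.ssubset_iff_subset_ne.2 ⟨hsub, fun he => ?_⟩)
      (Set.toFinite _), h1⟩
    have : (Set.range f, Sym2.map f '' H.edgeSet) ∈ copies H G := by
      rw [he]
      exact ⟨f, fun x y h => (hf x y h).imp_right fun h' => ⟨h', f.injective.ne h.ne⟩, rfl⟩
    obtain ⟨g, hg, h2⟩ := this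
    have h3 : s(f x, f y) ∈ Sym2.map g '' H.edgeSet := by
      have h5 : Sym2.map f '' H.edgeSet = Sym2.map g '' H.edgeSet := congrArg Prod.snd h2
      rw [← h5]
      exact ⟨s(x, y), hxy, rfl⟩
    obtain ⟨e, he1, he2⟩ := h3
    induction e using Sym2.ind with
    | _ z w =>
      have h4 : s(g z, g w) ∈ G.edgeSet := hg z w he1
      rw [show s(g z, g w) = s(f x, f y) from he2] at h4
      exact hab h4

def Str {V : Type} (H : SimpleGraph V) (u : V) (K : Finset V) : Prop :=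
  u ∈ K ∧ K.card = 6 ∧ ∀ a b, H.Adj a b ↔ a ≠ b ∧ (a = u ∨ b = u ∨ (a ∈ K ∧ b ∈ K))

theorem Str.plus {V : Type} {H : SimpleGraph V} {u : V} {K : Finset V} (h : Str H u K) :
    Str (plus H u) (some u) (K.map Function.Embedding.some) := by
  refine ⟨by simpa using h.1, by simpa using h.2.1, fun a b => ?_⟩
  rw [Pendant.plus, SimpleGraph.sup_adj, SimpleGraph.map_adj, SimpleGraph.fromEdgeSet_adj]
  cases a <;> cases b <;> simp [h.2.2, eq_comm]

theorem Str.conn {V : Type} {H : SimpleGraph V} {u : V} {K : Finset V} (h : Str H u K) :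
    H.Connected := by
  have hr : ∀ a, H.Reachable a u := fun a => by
    by_cases ha : a = u
    · rw [ha]
    · exact ((h.2.2 a u).2 ⟨ha, Or.inr (Or.inl rfl)⟩).reachable
  have : Nonempty V := ⟨u⟩
  exact ⟨fun a b => (hr a).trans (hr b).symm⟩

theorem build {V W : Type} [Fintype V] [DecidableEq W] {H : SimpleGraph V} {u : V}
    {K : Finset V} (h : Str H u K) {Q R : Finset W} {q : W} (hq : q ∈ Q) (hQ : Q.card = 6)
    (hR : R.card + 6 = Fintype.card V) (hQR : Disjoint Q R) :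
    ∃ f : V ↪ W, (∀ x y, H.Adj x y → f x ≠ f y ∧
      ((f x ∈ Q ∧ f y ∈ Q) ∨ (f x = q ∧ f y ∈ R) ∨ (f y = q ∧ f x ∈ R))) ∧
      ∀ a b, a ≠ b → (a ∈ Q ∧ b ∈ Q) ∨ (a = q ∧ b ∈ R) → ∃ x y, H.Adj x y ∧ f x = a ∧ f y = b := by
  classical
  obtain ⟨hu, hK, hA⟩ := h
  let e1 : (K.erase u) ≃ (Q.erase q) := equivOfCardEq (by
    rw [card_erase_of_mem hu, card_erase_of_mem hq, hK, hQ])
  let e2 : (Kᶜ : Finset V) ≃ R := equivOfCardEq (by rw [card_compl, hK]; omega)
  let f : V → W := fun v => if h1 : v ∈ K then (if h2 : v = u then q else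
    e1 ⟨v, mem_erase.2 ⟨h2, h1⟩⟩) else e2 ⟨v, mem_compl.2 h1⟩
  have f1 : f u = q := by simp [f, hu]
  have f2 : ∀ v (h1 : v ∈ K) (h2 : v ≠ u), f v = e1 ⟨v, mem_erase.2 ⟨h2, h1⟩⟩ := by
    intro v h1 h2; simp [f, h1, h2]
  have f3 : ∀ v (h1 : v ∉ K), f v = e2 ⟨v, mem_compl.2 h1⟩ := by
    intro v h1; simp [f, h1]
  have g2 : ∀ v, v ∈ K → v ≠ u → f v ∈ Q.erase q := fun v h1 h2 => by
    rw [f2 v h1 h2]; exact (e1 _).2
  have g1 : ∀ v, v ∈ K → f v ∈ Q := fun v h1 => by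
    by_cases h2 : v = u
    · rw [h2, f1]; exact hq
    · exact mem_of_mem_erase (g2 v h1 h2)
  have g3 : ∀ v, v ∉ K → f v ∈ R := fun v h1 => by rw [f3 v h1]; exact (e2 _).2
  have hinj : Function.Injective f := by
    intro v w hvw
    by_cases h1 : v ∈ K <;> by_cases h2 : w ∈ K
    · by_cases h3 : v = u <;> by_cases h4 : w = u
      · rw [h3, h4]
      · exact absurd (hvw.symm.trans (h3 ▸ f1)) (ne_of_mem_erase (g2 w h2 h4))
      · exact absurd (hvw.trans (h4 ▸ f1)) (ne_of_mem_erase (g2 v h1 h3))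
      · rw [f2 v h1 h3, f2 w h2 h4] at hvw
        exact congrArg Subtype.val (e1.injective (Subtype.ext hvw))
    · exact absurd (hvw ▸ g1 v h1) (disjoint_right.1 hQR (g3 w h2))
    · exact absurd (hvw ▸ g3 v h1) (disjoint_left.1 hQR (g1 w h2))
    · rw [f3 v h1, f3 w h2] at hvw
      exact congrArg Subtype.val (e2.injective (Subtype.ext hvw))
  have s1 : ∀ a ∈ Q, ∃ x ∈ K, f x = a := fun a ha => by
    by_cases h2 : a = q
    · exact ⟨u, hu, f1.trans h2.symm⟩
    · obtain ⟨⟨x, hx⟩, h3⟩ := e1.surjective ⟨a, mem_erase.2 ⟨h2, ha⟩⟩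
      exact ⟨x, mem_of_mem_erase hx, by
        rw [f2 x (mem_of_mem_erase hx) (ne_of_mem_erase hx), h3]⟩
  have s2 : ∀ a ∈ R, ∃ x, f x = a := fun a ha => by
    obtain ⟨⟨x, hx⟩, h3⟩ := e2.surjective ⟨a, ha⟩
    exact ⟨x, by rw [f3 x (mem_compl.1 hx), h3]⟩
  refine ⟨⟨f, hinj⟩, fun x y hxy => ⟨hinj.ne hxy.ne, ?_⟩, fun a b hab h => ?_⟩
  · simp only [Function.Embedding.coeFn_mk]
    obtain ⟨-, rfl | rfl | ⟨h1, h2⟩⟩ := (hA x y).1 hxy
    · by_cases h2 : y ∈ K
      · exact Or.inl ⟨g1 _ hu, g1 _ h2⟩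
      · exact Or.inr (Or.inl ⟨f1, g3 _ h2⟩)
    · by_cases h2 : x ∈ K
      · exact Or.inl ⟨g1 _ h2, g1 _ hu⟩
      · exact Or.inr (Or.inr ⟨f1, g3 _ h2⟩)
    · exact Or.inl ⟨g1 _ h1, g1 _ h2⟩
  · rcases h with ⟨h1, h2⟩ | ⟨rfl, h2⟩
    · obtain ⟨x, hx, rfl⟩ := s1 a h1
      obtain ⟨y, hy, rfl⟩ := s1 b h2
      exact ⟨x, y, (hA x y).2 ⟨fun h => hab (congrArg f h), Or.inr (Or.inr ⟨hx, hy⟩)⟩, rfl, rfl⟩
    · obtain ⟨y, rfl⟩ := s2 b h2
      exact ⟨u, y, (hA u y).2 ⟨fun h => hab (by rw [← h, f1]), Or.inl rfl⟩, f1, rfl⟩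

theorem add_edge {V W : Type} [Fintype V] [Finite W] [DecidableEq W] {H : SimpleGraph V} {u : V}
    {K : Finset V} (h : Str H u K) {G : SimpleGraph W} {Q R : Finset W} {q a b : W} (hq : q ∈ Q)
    (hQ : Q.card = 6) (hR : R.card + 6 = Fintype.card V) (hQR : Disjoint Q R) (hab : a ≠ b)
    (h1 : (a ∈ Q ∧ b ∈ Q) ∨ (a = q ∧ b ∈ R))
    (h2 : ∀ x ∈ Q, ∀ y ∈ Q, x ≠ y → G.Adj x y ∨ s(x, y) = s(a, b))
    (h3 : ∀ y ∈ R, G.Adj q y ∨ s(q, y) = s(a, b)) : (step H G).Adj a b := by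
  obtain ⟨f, hf, hf2⟩ := build h hq hQ hR hQR
  refine (step_adj H G a b).2 (Or.inr ⟨hab, f, fun x y hxy => ?_, hf2 a b hab h1⟩)
  obtain ⟨h4, ⟨h5, h6⟩ | ⟨h5, h6⟩ | ⟨h5, h6⟩⟩ := hf x y hxy
  · exact h2 _ h5 _ h6 h4
  · rw [h5]; exact h3 _ h6
  · rw [h5, G.adj_comm, Sym2.eq_swap]; exact h3 _ h6

theorem le_step {V W : Type} (H : SimpleGraph V) (G : SimpleGraph W) : G ≤ step H G := le_sup_left

theorem bdd {V : Type} [Fintype V] {H : SimpleGraph V} {u : V} {K : Finset V} (h : Str H u K)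
    (hV : Fintype.card V = 7) (n : ℕ) : M H n ≤ 3 := by
  refine ciSup_le fun G => ?_
  by_cases h0 : G = step H G
  · exact (Nat.sInf_le (m := 0) h0).trans (by omega)
  apply Nat.sInf_le
  obtain ⟨a, b, h1, h2⟩ : ∃ a b, (step H G).Adj a b ∧ ¬ G.Adj a b := by
    by_contra hn
    push Not at hn
    exact h0 (le_antisymm (le_step H G) hn)
  obtain ⟨hab, f, hf, -⟩ := ((step_adj H G a b).1 h1).resolve_left h2
  have hQ : (K.map f).card = 6 := by rw [card_map, h.2.1]
  have c1 : ∀ x ∈ K.map f, ∀ y ∈ K.map f, x ≠ y → (step H G).Adj x y := by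
    intro x hx y hy hxy
    obtain ⟨z, hz, rfl⟩ := mem_map.1 hx
    obtain ⟨w, hw, rfl⟩ := mem_map.1 hy
    rcases hf z w ((h.2.2 z w).2 ⟨fun e => hxy (congrArg f e), Or.inr (Or.inr ⟨hz, hw⟩)⟩) with
      h3 | h3
    · exact le_step H G h3
    · have h4 : s(a, b) ∈ (step H G).edgeSet := h1
      rwa [← h3] at h4
  set Q := K.map f
  have c2 : ∀ x ∈ Q, ∀ y, x ≠ y → (step H (step H G)).Adj x y := by
    intro x hx y hxy
    by_cases hy : y ∈ Q
    · exact le_step _ _ (c1 x hx y hy hxy)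
    · refine add_edge h (R := {y}) hx hQ (by simp [hV]) (by simpa using hy) hxy
        (Or.inr ⟨rfl, by simp⟩) (fun z hz w hw hzw => Or.inl (c1 z hz w hw hzw)) ?_
      intro z hz
      rw [mem_singleton.1 hz]
      exact Or.inr rfl
  have c3 : step H (step H (step H G)) = ⊤ := by
    refine eq_top_iff.2 fun x y hxy => ?_
    have hxy : x ≠ y := hxy
    by_cases hx : x ∈ Q
    · exact le_step _ _ (c2 x hx y hxy)
    by_cases hy : y ∈ Q
    · exact le_step _ _ (c2 y hy x hxy.symm).symm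
    obtain ⟨S, hS, hS4⟩ := exists_subset_card_eq (s := Q) (n := 4) (by omega)
    obtain ⟨q, hq⟩ := card_pos.1 (by omega : 0 < S.card)
    obtain ⟨r, hr, hrS⟩ := exists_mem_notMem_of_card_lt_card (by omega : S.card < Q.card)
    have hxS : x ∉ S := fun h => hx (hS h)
    have hyS : y ∉ S := fun h => hy (hS h)
    refine add_edge h (Q := insert x (insert y S)) (R := {r}) (q := q) (by simp [hq])
      (by rw [card_insert_of_notMem (by simp [hxy, hxS]), card_insert_of_notMem hyS, hS4])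
      (by simp [hV]) ?_ hxy (Or.inl ⟨by simp, by simp⟩) ?_ ?_
    · simp only [disjoint_singleton_right, mem_insert, not_or]
      exact ⟨fun e => hx (e ▸ hr), fun e => hy (e ▸ hr), hrS⟩
    · intro z hz w hw hzw
      by_cases h3 : z ∈ S
      · exact Or.inl (c2 z (hS h3) w hzw)
      by_cases h4 : w ∈ S
      · exact Or.inl (c2 w (hS h4) z hzw.symm).symm
      simp only [mem_insert, h3, h4, or_false] at hz hw
      rcases hz with rfl | rfl <;> rcases hw with rfl | rfl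
      · exact absurd rfl hzw
      · exact Or.inr rfl
      · exact Or.inr Sym2.eq_swap
      · exact absurd rfl hzw
    · intro z hz
      rw [mem_singleton.1 hz]
      exact Or.inl (c2 q (hS hq) r fun e => hrS (e ▸ hq))
  change step H (step H (step H G)) = step H (step H (step H (step H G)))
  rw [c3]
  exact (eq_top_iff.2 (le_step H ⊤)).symm

def A (t a b : ℕ) : Prop := a < b ∧ b ≤ 3 * (a / 3) + 4 ∧ ¬ (a % 3 = 0 ∧ b = a + 1 ∧ t < a / 3)

def Gt (T t : ℕ) : SimpleGraph (Fin (3 * T + 3)) where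
  Adj a b := a ≠ b ∧ (a.val = 3 * T + 2 ∨ b.val = 3 * T + 2 ∨ A t a b ∨ A t b a)
  symm := ⟨fun a b h => ⟨h.1.symm, by have := h.2; tauto⟩⟩
  loopless := ⟨fun a h => h.1 rfl⟩

theorem five {t a b c d e : ℕ} (hab : a < b) (h1 : c < d) (h2 : d < e) (n0 : ¬ A t a b)
    (ac : A t a c ∨ A t c a) (ad : A t a d ∨ A t d a) (ae : A t a e ∨ A t e a)
    (bc : A t b c ∨ A t c b) (bd : A t b d ∨ A t d b) (be : A t b e ∨ A t e b)
    (cd : A t c d ∨ A t d c) (ce : A t c e ∨ A t e c) (de : A t d e ∨ A t e d) :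
    A (t + 1) a b := by
  unfold A at *
  omega

theorem step_Gt {V : Type} [Fintype V] {H : SimpleGraph V} {u : V} {K : Finset V}
    (h : Str H u K) (hV : Fintype.card V = 13) {T : ℕ} (hT : 4 ≤ T) (t : ℕ) :
    step H (Gt T t) = Gt T (t + 1) := by
  classical
  have key : ∀ a b : Fin (3 * T + 3), a < b → (step H (Gt T t)).Adj a b →
      (Gt T (t + 1)).Adj a b := by
    intro a b hlt h1
    by_cases h0 : (Gt T t).Adj a b
    · refine ⟨h0.1, ?_⟩
      have := h0.2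
      unfold A at *
      omega
    obtain ⟨hab, f, hf, x, y, hxy, hx, hy⟩ := ((step_adj _ _ a b).1 h1).resolve_left h0
    have n1 : a.val ≠ 3 * T + 2 := fun e => h0 ⟨hab, Or.inl e⟩
    have n2 : b.val ≠ 3 * T + 2 := fun e => h0 ⟨hab, Or.inr (Or.inl e)⟩
    have n3 : ¬ A t a b := fun e => h0 ⟨hab, Or.inr (Or.inr (Or.inl e))⟩
    have hu : (f u).val = 3 * T + 2 := by
      by_contra hu
      have h2 : (univ : Finset V).card ≤ (insert a.val (insert b.val (insert (3 * T + 2)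
          (Icc ((f u).val - 4) ((f u).val + 4))))).card := by
        refine card_le_card_of_injOn (fun v => (f v).val) (fun v _ => ?_)
          fun v _ w _ e => f.injective (Fin.ext e)
        simp only [coe_insert, coe_Icc, Set.mem_insert_iff, Set.mem_Icc]
        by_cases hv : u = v
        · subst hv; omega
        rcases hf u v ((h.2.2 u v).2 ⟨hv, Or.inl rfl⟩) with h3 | h3
        · have := h3.2
          unfold A at this
          omega
        · rcases Sym2.eq_iff.1 h3 with ⟨-, h4⟩ | ⟨-, h4⟩ <;> simp [h4]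
      have h3 := card_insert_le a.val (insert b.val (insert (3 * T + 2)
          (Icc ((f u).val - 4) ((f u).val + 4))))
      have h4 := card_insert_le b.val (insert (3 * T + 2) (Icc ((f u).val - 4) ((f u).val + 4)))
      have h5 := card_insert_le (3 * T + 2) (Icc ((f u).val - 4) ((f u).val + 4))
      rw [card_univ, hV] at h2
      rw [Nat.card_Icc] at h5
      omega
    have xu : x ≠ u := fun e => n1 (by rw [← hx, e, hu])
    have yu : y ≠ u := fun e => n2 (by rw [← hy, e, hu])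
    obtain ⟨hxK, hyK⟩ : x ∈ K ∧ y ∈ K := by
      have := ((h.2.2 x y).1 hxy).2; tauto
    let S := (((K.erase u).erase x).erase y).map f
    have hS : S.card = 3 := by
      rw [card_map, card_erase_of_mem (by simp [hyK, yu, hxy.ne']),
        card_erase_of_mem (by simp [hxK, xu]), card_erase_of_mem h.1, h.2.1]
    have adj : ∀ z w : V, z ∈ K → w ∈ K → z ≠ u → w ≠ u → z ≠ w → w ≠ x → w ≠ y →
        A t (f z) (f w) ∨ A t (f w) (f z) := by
      intro z w hz hw h1 h2 h3 h4 h5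
      rcases hf z w ((h.2.2 z w).2 ⟨h3, Or.inr (Or.inr ⟨hz, hw⟩)⟩) with h6 | h6
      · have e1 : (f z).val ≠ 3 * T + 2 := fun e => h1 (f.injective (Fin.ext (e.trans hu.symm)))
        have e2 : (f w).val ≠ 3 * T + 2 := fun e => h2 (f.injective (Fin.ext (e.trans hu.symm)))
        have := h6.2
        tauto
      · rw [← hx, ← hy] at h6
        rcases Sym2.eq_iff.1 h6 with ⟨-, h7⟩ | ⟨-, h7⟩
        · exact absurd (f.injective h7) h5
        · exact absurd (f.injective h7) h4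
    have mem : ∀ i : Fin 3, ∃ z, z ∈ K ∧ z ≠ u ∧ z ≠ x ∧ z ≠ y ∧ f z = S.orderEmbOfFin hS i := by
      intro i
      obtain ⟨z, hz, e⟩ := mem_map.1 (S.orderEmbOfFin_mem hS i)
      simp only [mem_erase] at hz
      exact ⟨z, hz.2.2.2, hz.2.2.1, hz.2.1, hz.1, e⟩
    obtain ⟨c, c1, c2, c3, c4, c5⟩ := mem 0
    obtain ⟨d, d1, d2, d3, d4, d5⟩ := mem 1
    obtain ⟨e, e1, e2, e3, e4, e5⟩ := mem 2
    have cd : f c < f d := by rw [c5, d5]; exact (S.orderEmbOfFin hS).strictMono (by decide)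
    have de : f d < f e := by rw [d5, e5]; exact (S.orderEmbOfFin hS).strictMono (by decide)
    have cd' : c ≠ d := fun h => cd.ne (congrArg f h)
    have de' : d ≠ e := fun h => de.ne (congrArg f h)
    have ce' : c ≠ e := fun h => (cd.trans de).ne (congrArg f h)
    refine ⟨hab, Or.inr (Or.inr (Or.inl ?_))⟩
    subst hx hy
    exact five hlt cd de n3 (adj x c hxK c1 xu c2 c3.symm c3 c4) (adj x d hxK d1 xu d2 d3.symm d3 d4)
      (adj x e hxK e1 xu e2 e3.symm e3 e4) (adj y c hyK c1 yu c2 c4.symm c3 c4)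
      (adj y d hyK d1 yu d2 d4.symm d3 d4) (adj y e hyK e1 yu e2 e4.symm e3 e4)
      (adj c d c1 d1 c2 d2 cd' d3 d4) (adj c e c1 e1 c2 e2 ce' e3 e4) (adj d e d1 e1 d2 e2 de' e3 e4)
  have key2 : ∀ a b : Fin (3 * T + 3), a < b → (Gt T (t + 1)).Adj a b →
      (step H (Gt T t)).Adj a b := by
    intro a b hlt h1
    by_cases h0 : (Gt T t).Adj a b
    · exact le_step _ _ h0
    have hab := h1.1
    have hlt' : a.val < b.val := hlt
    have hb := b.2
    obtain ⟨ha, hb', hb2⟩ : a.val = 3 * t + 3 ∧ b.val = 3 * t + 4 ∧ b.val < 3 * T + 2 := by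
      have h2 := h1.2
      have h3 : ¬ (a.val = 3 * T + 2 ∨ b.val = 3 * T + 2 ∨ A t a b ∨ A t b a) :=
        fun e => h0 ⟨hab, e⟩
      unfold A at h2 h3
      omega
    let Q : Finset (Fin (3 * T + 3)) :=
      (insert (3 * T + 2) (Icc (3 * t) (3 * t + 4))).attachFin (by
        intro m hm
        simp only [mem_insert, mem_Icc] at hm
        omega)
    have hQm : ∀ z, z ∈ Q ↔ z.val = 3 * T + 2 ∨ (3 * t ≤ z.val ∧ z.val ≤ 3 * t + 4) := by
      intro z; simp [Q]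
    have hQ : Q.card = 6 := by
      rw [card_attachFin, card_insert_of_notMem (by simp; omega), Nat.card_Icc]; omega
    obtain ⟨R, hR, hR7⟩ := exists_subset_card_eq (s := Qᶜ) (n := 7) (by
      rw [card_compl, hQ, Fintype.card_fin]; omega)
    refine add_edge h (Q := Q) (R := R) (q := ⟨3 * T + 2, by omega⟩) ((hQm _).2 (Or.inl rfl)) hQ
      (by omega) (disjoint_right.2 fun z hz => mem_compl.1 (hR hz)) hab
      (Or.inl ⟨(hQm _).2 (by omega), (hQm _).2 (by omega)⟩) ?_ ?_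
    · intro z hz w hw hzw
      rw [hQm] at hz hw
      have : z.val ≠ w.val := fun e => hzw (Fin.ext e)
      simp only [Gt, Sym2.eq_iff, Fin.ext_iff, A, ne_eq]
      omega
    · intro z hz
      refine Or.inl ⟨fun e => mem_compl.1 (hR hz) ((hQm _).2 (Or.inl (by rw [← e]))), Or.inl rfl⟩
  ext a b
  rcases lt_trichotomy a b with hlt | rfl | hlt
  · exact ⟨key a b hlt, key2 a b hlt⟩
  · simp
  · rw [SimpleGraph.adj_comm, (Gt T (t + 1)).adj_comm]
    exact ⟨key b a hlt, key2 b a hlt⟩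

theorem unb {V : Type} [Fintype V] {H : SimpleGraph V} {u : V} {K : Finset V}
    (h : Str H u K) (hV : Fintype.card V = 13) {T : ℕ} (hT : 4 ≤ T) : T ≤ M H (3 * T + 3) := by
  have h1 : ∀ t, (step H)^[t] (Gt T 0) = Gt T t := by
    intro t
    induction t with
    | zero => rfl
    | succ t ih => rw [Function.iterate_succ_apply', ih, step_Gt h hV hT]
  refine le_trans ?_ (le_ciSup (f := fun G => tau H G) (Set.finite_range _).bddAbove (Gt T 0))
  refine le_csInf ⟨T, ?_⟩ fun t ht => ?_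
  · simp only [Set.mem_ofPred_eq, h1]
    ext a b
    have := a.2
    have := b.2
    simp only [Gt, A]
    omega
  · simp only [Set.mem_ofPred_eq, h1] at ht
    by_contra hn
    have h2 : (Gt T (t + 1)).Adj ⟨3 * t + 3, by omega⟩ ⟨3 * t + 4, by omega⟩ := by
      refine ⟨fun e => ?_, Or.inr (Or.inr (Or.inl ?_))⟩
      · have : 3 * t + 3 = 3 * t + 4 := congrArg Fin.val e
        omega
      · change A (t + 1) (3 * t + 3) (3 * t + 4)
        unfold A
        omega
    rw [← ht] at h2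
    have h3 : 3 * t + 3 = 3 * T + 2 ∨ 3 * t + 4 = 3 * T + 2 ∨ A t (3 * t + 3) (3 * t + 4) ∨
      A t (3 * t + 4) (3 * t + 3) := h2.2
    unfold A at h3
    omega

theorem jump (j : ℕ) : ∀ (V : Type) [Fintype V] (H : SimpleGraph V) (u : V) (K : Finset V),
    Str H u K → Fintype.card V + j = 13 → (∃ B, ∀ᶠ n in atTop, M H n ≤ B) →
    ∃ (V : Type) (_ : Fintype V) (H : SimpleGraph V) (u : V), H.Connected ∧
      (∃ B, ∀ᶠ n in atTop, M H n ≤ B) ∧ ¬ ∃ B, ∀ᶠ n in atTop, M (plus H u) n ≤ B := by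
  induction j with
  | zero =>
    rintro V _ H u K h hV ⟨B, hB⟩
    obtain ⟨N, hN⟩ := eventually_atTop.1 hB
    have h1 := unb h hV (T := N + B + 4) (by omega)
    have h2 := hN (3 * (N + B + 4) + 3) (by omega)
    omega
  | succ j ih =>
    intro V _ H u K h hV hB
    by_cases h1 : ∃ B, ∀ᶠ n in atTop, M (plus H u) n ≤ B
    · exact ih _ _ _ _ h.plus (by rw [Fintype.card_option]; omega) h1
    · exact ⟨V, inferInstance, H, u, h.conn, hB, h1⟩

theorem result : ∃ (V : Type) (_ : Fintype V) (H : SimpleGraph V) (u : V), H.Connected ∧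
    (¬ ∃ B : ℕ, ∀ᶠ n in atTop, M (plus H u) n ≤ B) ∧
    ¬ ∃ C : ℝ, ∀ᶠ n in atTop, (M (plus H u) n : ℝ) ≤ C * M H n := by
  have h0 : Str (⊤ : SimpleGraph (Fin 6)) 0 univ := ⟨by simp, by simp, fun a b => by simp⟩
  obtain ⟨V, _, H, u, h1, ⟨B, h2⟩, h3⟩ := jump 6 _ _ _ _ h0.plus (by simp)
    ⟨3, Eventually.of_forall (bdd h0.plus (by simp))⟩
  refine ⟨V, inferInstance, H, u, h1, h3, ?_⟩
  rintro ⟨C, hC⟩
  obtain ⟨N, hN⟩ := exists_nat_ge (|C| * B)
  refine h3 ⟨N, ?_⟩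
  filter_upwards [h2, hC] with n h4 h5
  have h6 : (M H n : ℝ) ≤ B := by exact_mod_cast h4
  have : (M (plus H u) n : ℝ) ≤ N := by
    calc _ ≤ C * M H n := h5
      _ ≤ |C| * B := mul_le_mul (le_abs_self C) h6 (Nat.cast_nonneg _) (abs_nonneg C)
      _ ≤ N := hN
  exact_mod_cast this

end Pool.Agent.Results.MP_7332c2_co.Pendant
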